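import Pool.Agent.H97.PRK.Targets

/-!
# MP_e37c09_lc, module LFU: the splitting points and local definability
-/

open Ordinal Cardinal Order Set
open scoped ZFSet

universe u

namespace Pool.Agent.H68.PRK

open _root_.HD HD.PRK

/-- splitting, for sets -/
def PS (μ ρ F i : ZFSet.{u}) : Prop :=
  μ.IsOrdinal ∧ ρ.IsOrdinal ∧ i.IsOrdinal ∧ Spl μ.rank ρ.rank F i.rank

theorem loc_ps (h : T_LOC.{u}) (a b c d : ℕ) :
    Loc.{u} fun v => PS (v a) (v b) (v c) (v d) :=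
  h.ren fun n => if n = 0 then a else if n = 1 then b else if n = 2 then c else d

theorem ps_iff {μ ρ i : Ordinal.{u}} {F : ZFSet.{u}} :
    PS μ.toZFSet ρ.toZFSet F i.toZFSet ↔ Spl μ ρ F i := by
  unfold PS
  simp only [ZFSet.isOrdinal_toZFSet, rank_toZFSet, true_and]

/-- smallness of the set of the splitting points -/
def Sm (μ ρ F γ δ p : ZFSet.{u}) : Prop :=
  ∃ τ ∈ δ, ∃ h ⊆ p, ∀ i ∈ γ, PS μ ρ F i →
    ∃ a ∈ τ, ZFSet.pair a i ∈ h ∧ ∀ i' ∈ γ, ZFSet.pair a i' ∈ h → i' = i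

theorem loc_sm (h : T_LOC.{u}) (a b c d e g : ℕ) :
    Loc.{u} fun v => Sm (v a) (v b) (v c) (v d) (v e) (v g) :=
  Loc.exMem (R := fun τ v => ∃ h ⊆ v g, ∀ i ∈ v d, PS (v a) (v b) (v c) i →
      ∃ a ∈ τ, ZFSet.pair a i ∈ h ∧ ∀ i' ∈ v d, ZFSet.pair a i' ∈ h → i' = i) e
    (Loc.exSub (R := fun h v => ∀ i ∈ v (d + 1), PS (v (a + 1)) (v (b + 1)) (v (c + 1)) i →
      ∃ a ∈ v 0, ZFSet.pair a i ∈ h ∧ ∀ i' ∈ v (d + 1), ZFSet.pair a i' ∈ h → i' = i) (g + 1)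
      (Loc.allMem (R := fun i v => PS (v (a + 2)) (v (b + 2)) (v (c + 2)) i →
        ∃ a ∈ v 1, ZFSet.pair a i ∈ v 0 ∧ ∀ i' ∈ v (d + 2), ZFSet.pair a i' ∈ v 0 → i' = i)
          (d + 2)
        ((loc_ps h (a + 3) (b + 3) (c + 3) 0).imp
          (Loc.exMem (R := fun a v => ZFSet.pair a (v 0) ∈ v 1 ∧
            ∀ i' ∈ v (d + 3), ZFSet.pair a i' ∈ v 1 → i' = v 0) 2
            ((loc_pmem 0 1 2).and
              (Loc.allMem (R := fun i' v => ZFSet.pair (v 0) i' ∈ v 2 → i' = v 1) (d + 4)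
                ((loc_pmem 1 0 3).imp (Loc.eq 0 2))))))))

theorem sm_iff {μ ρ γ δ : Ordinal.{u}} {F : ZFSet.{u}} :
    Sm μ.toZFSet ρ.toZFSet F γ.toZFSet δ.toZFSet (ZFSet.prod δ.toZFSet γ.toZFSet) ↔
      Few δ {i | i < γ ∧ Spl μ ρ F i} := by
  classical
  constructor
  · rintro ⟨_, hτ, h, -, hh⟩
    obtain ⟨τ, hτδ, rfl⟩ := mem_toZFSet_iff.1 hτ
    refine ⟨τ, hτδ, ?_⟩
    refine ⟨fun a => if hx : ∃ i : Ordinal.{u}, i < γ ∧ ZFSet.pair a.toZFSet i.toZFSet ∈ h then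
      Classical.choose hx else 0, fun x hx => ?_⟩
    obtain ⟨h1, h2⟩ := hx
    obtain ⟨_, h3, h4, h5⟩ := hh x.toZFSet (toZFSet_mem_toZFSet_iff.2 h1) (ps_iff.2 h2)
    obtain ⟨a, ha, rfl⟩ := mem_toZFSet_iff.1 h3
    refine ⟨a, ha, ?_⟩
    have hex : ∃ i : Ordinal.{u}, i < γ ∧ ZFSet.pair a.toZFSet i.toZFSet ∈ h := ⟨x, h1, h4⟩
    show (if hx : ∃ i : Ordinal.{u}, i < γ ∧ ZFSet.pair a.toZFSet i.toZFSet ∈ h then
      Classical.choose hx else 0) = x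
    rw [dif_pos hex]
    obtain ⟨h6, h7⟩ := Classical.choose_spec hex
    exact toZFSet_injective (h5 _ (toZFSet_mem_toZFSet_iff.2 h6) h7)
  · rintro ⟨τ, hτδ, e, he⟩
    refine ⟨τ.toZFSet, toZFSet_mem_toZFSet_iff.2 hτδ, rs δ γ (fun a b => e a = b), ?_, ?_⟩
    · intro z hz
      obtain ⟨a, ha, b, hb, -, rfl⟩ := mem_rs.1 hz
      rw [ZFSet.pair_mem_prod]
      exact ⟨toZFSet_mem_toZFSet_iff.2 ha, toZFSet_mem_toZFSet_iff.2 hb⟩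
    · intro z hz hs
      obtain ⟨i, hi, rfl⟩ := mem_toZFSet_iff.1 hz
      obtain ⟨a, ha, hai⟩ := he i ⟨hi, ps_iff.1 hs⟩
      refine ⟨a.toZFSet, toZFSet_mem_toZFSet_iff.2 ha,
        pair_mem_rs.2 ⟨ha.trans hτδ, hi, hai⟩, ?_⟩
      intro z' hz' hp
      obtain ⟨i', hi', rfl⟩ := mem_toZFSet_iff.1 hz'
      obtain ⟨-, -, h3⟩ := pair_mem_rs.1 hp
      rw [← hai, ← h3]

theorem lfw (h : T_LOC.{u}) : T_LFW.{u} := by
  unfold T_LFW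
  refine Loc.congr (P := fun v => (v 0).IsOrdinal ∧ (v 1).IsOrdinal ∧ (v 3).IsOrdinal ∧
    (v 4).IsOrdinal ∧ ∃ p, p = ZFSet.prod (v 4) (v 3) ∧
      Sm (v 0) (v 1) (v 2) (v 3) (v 4) p) ?_ ?_
  · refine (loc_ord 0).and ((loc_ord 1).and ((loc_ord 3).and ((loc_ord 4).and (Loc.ex ?_ ?_))))
    · exact (loc_prod 0 5 4).and (loc_sm h 1 2 3 4 5 0)
    · rintro η hη v hv x ⟨rfl, -⟩
      exact hη.prod (hv _) (hv _)
  · intro v
    refine and_congr_right fun h0 => and_congr_right fun h1 => and_congr_right fun h3 =>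
      and_congr_right fun h4 => ?_
    rw [exists_eq_left]
    have := sm_iff (μ := (v 0).rank) (ρ := (v 1).rank) (γ := (v 3).rank) (δ := (v 4).rank)
      (F := v 2)
    rw [h0.toZFSet_rank_eq, h1.toZFSet_rank_eq, h3.toZFSet_rank_eq, h4.toZFSet_rank_eq] at this
    exact this.symm

/-- unboundedness -/
def Un (μ ρ F γ : ZFSet.{u}) : Prop := ∀ z ∈ γ, ∃ i ∈ γ, z ∈ i ∧ PS μ ρ F i

theorem loc_un (h : T_LOC.{u}) (a b c d : ℕ) :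
    Loc.{u} fun v => Un (v a) (v b) (v c) (v d) :=
  Loc.allMem (R := fun z v => ∃ i ∈ v d, z ∈ i ∧ PS (v a) (v b) (v c) i) d
    (Loc.exMem (R := fun i v => v 0 ∈ i ∧ PS (v (a + 1)) (v (b + 1)) (v (c + 1)) i) (d + 1)
      ((Loc.mem 1 0).and (loc_ps h (a + 2) (b + 2) (c + 2) 0)))

theorem un_iff {μ ρ γ : Ordinal.{u}} {F : ZFSet.{u}} :
    Un μ.toZFSet ρ.toZFSet F γ.toZFSet ↔
      ∀ z < γ, ∃ i, z < i ∧ i < γ ∧ Spl μ ρ F i := by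
  constructor
  · intro h z hz
    obtain ⟨_, h1, h2, h3⟩ := h z.toZFSet (toZFSet_mem_toZFSet_iff.2 hz)
    obtain ⟨i, hi, rfl⟩ := mem_toZFSet_iff.1 h1
    exact ⟨i, toZFSet_mem_toZFSet_iff.1 h2, hi, ps_iff.1 h3⟩
  · intro h z hz
    obtain ⟨a, ha, rfl⟩ := mem_toZFSet_iff.1 hz
    obtain ⟨i, h1, h2, h3⟩ := h a ha
    exact ⟨i.toZFSet, toZFSet_mem_toZFSet_iff.2 h2, toZFSet_mem_toZFSet_iff.2 h1, ps_iff.2 h3⟩

theorem lun (h : T_LOC.{u}) : T_LUN.{u} := by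
  unfold T_LUN
  refine Loc.congr (P := fun v => (v 0).IsOrdinal ∧ (v 1).IsOrdinal ∧ (v 3).IsOrdinal ∧
    Un (v 0) (v 1) (v 2) (v 3)) ?_ ?_
  · exact (loc_ord 0).and ((loc_ord 1).and ((loc_ord 3).and (loc_un h 0 1 2 3)))
  · intro v
    refine and_congr_right fun h0 => and_congr_right fun h1 => and_congr_right fun h3 => ?_
    have := un_iff (μ := (v 0).rank) (ρ := (v 1).rank) (γ := (v 3).rank) (F := v 2)
    rw [h0.toZFSet_rank_eq, h1.toZFSet_rank_eq, h3.toZFSet_rank_eq] at this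
    exact this.symm

/-- LFU. -/
theorem pf_LFU (h : T_LOC.{u}) : T_LFW.{u} ∧ T_LUN.{u} := ⟨lfw h, lun h⟩

end Pool.Agent.H68.PRK
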